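import Pool.Agent.N874.QM.Stm
import Pool.Agent.N187.PP.GN
import Pool.Agent.N630.PP.GP

/-!
# QM/SELC (helper874, subtask 6134): from the polynomial form of the Selmer group to cocycles
-/

set_option autoImplicit false
set_option linter.all false

open Polynomial IsDedekindDomain NumberField
open Pool.Agent.N783.PQ
open Pool.Agent.N874.PP (sW)
open Pool.Agent.N874.PM (PLoc)
open Pool.Agent.N874.JM (LocF)
open Pool.Agent.N874.QM
open Pool.Agent.TH115.GD (Pt act rs IsCoc LocTriv Comp Sep)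
open scoped Classical IntermediateField

namespace Pool.Agent.N521.QM

/-- A point gives a divisor. -/
theorem ploc_locF {M F : Type} [Field M] [Field F] [Algebra M F] {A B : M} {h : M[X]}
    (H : PLoc F A B h) : LocF F (X ^ 3 + C A * X + C B) h := by
  have e : (X ^ 3 + C A * X + C B : M[X]).map (algebraMap M F) =
      X ^ 3 + C (algebraMap M F A) * X + C (algebraMap M F B) := by
    simp only [Polynomial.map_add, Polynomial.map_mul, Polynomial.map_pow, Polynomial.map_X,
      Polynomial.map_C]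
  unfold LocF
  rw [e]
  rcases H with ⟨g, hg⟩ | ⟨x, y, hy, hxy, g, hg⟩
  · refine ⟨[], g, fun p hp => absurd hp List.not_mem_nil, ?_⟩
    rw [List.map_nil, List.prod_nil, mul_one]
    exact hg
  · have hev : eval x (X ^ 3 + C (algebraMap M F A) * X + C (algebraMap M F B)) = y ^ 2 := by
      simp only [eval_add, eval_mul, eval_pow, eval_X, eval_C]
      exact hxy.symm
    refine ⟨[(X - C x, C y)], g, ?_, ?_⟩
    · intro p hp
      rw [List.mem_singleton] at hp
      subst hp
      refine ⟨monic_X_sub_C x, ?_, ?_⟩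
      · rw [(irreducible_X_sub_C x).coprime_iff_not_dvd, dvd_iff_isRoot, IsRoot, hev]
        exact pow_ne_zero 2 hy
      · rw [dvd_iff_isRoot, IsRoot, eval_sub, hev, eval_pow, eval_C, sub_self]
    · rw [List.map_singleton, List.prod_singleton, natDegree_X_sub_C]
      have e2 : h.map (algebraMap M F) * ((-1) ^ 1 * (X - C x)) = (C x - X) * h.map (algebraMap M F) := by
        ring
      rw [e2]
      exact hg

theorem selc (hGLF : S_GLF) (hFARC : S_FARC) (hFARR : S_FARR) : S_SELC := by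
  intro M _ _ A B hd hirr hS f hf h2f hloc
  have h6 : (6 : M) ≠ 0 := by norm_num
  obtain ⟨β, hβ⟩ := Pool.Agent.N187.PP.gb Pool.Agent.N630.PP.gp3 Pool.Agent.N630.PP.gp4
    M A B h6 hd hirr f hf h2f
  obtain ⟨h, hh, hn⟩ := Pool.Agent.N187.PP.gn Pool.Agent.N630.PP.gp3 Pool.Agent.N630.PP.gp4
    M A B h6 hd hirr f hf h2f β hβ
  haveI : Fact (Irreducible (X ^ 3 + C A * X + C B : M[X])) := ⟨hirr⟩
  have hdeg : (X ^ 3 + C A * X + C B : M[X]).natDegree = 3 := by compute_degree!
  have hmon : (X ^ 3 + C A * X + C B : M[X]).Monic := by monicity!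
  have ht : Pool.Agent.N874.PP.Rt A B (AdjoinRoot.root (X ^ 3 + C A * X + C B : M[X])) := by
    have h1 := AdjoinRoot.eval₂_root (X ^ 3 + C A * X + C B : M[X])
    rw [eval₂_add, eval₂_add, eval₂_mul, eval₂_pow, eval₂_X, eval₂_C, eval₂_C] at h1
    exact h1
  have hL : Module.finrank M (AdjoinRoot (X ^ 3 + C A * X + C B : M[X])) = 3 := by
    rw [(AdjoinRoot.powerBasis hirr.ne_zero).finrank, AdjoinRoot.powerBasis_dim, hdeg]
  have he : ∀ q : M[X], aeval (AdjoinRoot.root (X ^ 3 + C A * X + C B : M[X])) q =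
      AdjoinRoot.mk (X ^ 3 + C A * X + C B : M[X]) q := fun q => AdjoinRoot.aeval_eq q
  obtain ⟨hn1, hn2⟩ := hn _ _ ht hL
  rw [he] at hn1 hn2
  have hcop : IsCoprime h (X ^ 3 + C A * X + C B) := by
    rw [isCoprime_comm, hirr.coprime_iff_not_dvd, ← AdjoinRoot.mk_eq_zero]
    exact hn1
  obtain ⟨s, hs⟩ := hS h hcop hn2 (fun w => by
    exact ploc_locF (hGLF M (Comp (𝓞 M) M w) A B h6 hd f hf h2f β h hβ hh (hFARC M A B hd w)
      (hloc.fin w))) (fun ρ => by
    letI := ρ.toAlgebra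
    exact ploc_locF (hGLF M ℝ A B h6 hd f hf h2f β h hβ hh (hFARR M A B hd) (hloc.real ρ)))
  refine Pool.Agent.N187.PP.gt Pool.Agent.N630.PP.gp3 Pool.Agent.N630.PP.gp4
    M A B h6 hd hirr f hf h2f β h hβ hh _ _ ht hL ?_
  rw [he]
  refine ⟨AdjoinRoot.mk _ s, ?_⟩
  have h1 := AdjoinRoot.mk_eq_zero.2 hs
  rw [map_sub, map_pow, sub_eq_zero] at h1
  rw [h1, pow_two]

end Pool.Agent.N521.QM
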